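import Pool.Agent.Helper45.CR.FourPrimes

/-!
# Four primes, dimension two

Let `K` be the field of rational numbers or an imaginary quadratic field, and let `p` be any odd prime
number which divides neither the discriminant nor the class number of `K`. There are infinitely many sets
`S` of four primes of `K` such that `G_{K,S}(p)` is infinite by the theorem of Golod and Shafarevich, and
such that all tame representations `ρ : G_K → GL_2(A)` over complete Noetherian local rings with finite
residue field of characteristic `p`, which are ramified only in `S` and in other primes of norm not
congruent to `1` modulo `p`, and whose image in `PGL_2` of the residue field is a `p`-group, have finite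
image. This is the crisp form of a part of the former hand-in GenericSets; see there for generic sets.

Idea of the proof. Let `ρ = 1 + π ^ a φ` modulo `π ^ (a + 1)` be a representation with values in
`GL_2(O)`, where `O` is a complete discrete valuation ring with prime element `π`. Let `N i` be the
matrices `φ(τ i)` over the residue field `k` for suitable elements `τ i` of inertia groups at the primes
`P i` of `S`, `i < 4`. By class field theory a Frobenius element at `P i` is mapped to
`- ∑ M i j N j / h`, where the sum is over `j ≠ i`, up to a multiple of `N i`; the `M i j` are the
logarithms modulo `P j` of a generator of `(P i) ^ h`. The relation between inertia and Frobenius elements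
shows that the commutator of `∑ M i j N j` and `N i` is `u M i i N i` for a number `u` in `k`, where
`p * M i i + 1` is the norm of `P i`. The primes `P i` are chosen such that, up to factors of the rows,
`M = [1, 1, 0, -1; 1, 1, -1, 0; -2 ν, -1, ν, ν; -1, -2, ν, 1]`, where `ν` is not a square modulo `p`. This
is possible by a form of the density theorem of Frobenius.

For `u = 0`, if `N 0` and `N 1` do not commute, then `N 3 = N 1 - α N 0` and `N 2 = N 0 - (α / ν) N 1`,
where `(α + 1) ^ 2 = ν`. The inertia groups act through roots of unity of order `p` up to a common factor,
so that the determinants of the `N i` are products of squares of elements `a i` of the prime field and a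
common factor. It follows that `ν ((a 3) ^ 2 - ν (a 2) ^ 2) = (2 α + 1) ((a 1) ^ 2 - ν (a 0) ^ 2)`. As
`α` is not in the prime field, all `a i` vanish, but there are no two linearly independent nilpotent
matrices of size two which are orthogonal to each other. For `u ≠ 0` the `N i` are nilpotent, and the
traces of the products of three of them satisfy linear equations which only have the solution zero. So all
first coefficients `φ` are commutative, and the image of the representation is finite in this case,
because abelian quotients of open subgroups of the tame Galois group are finite by class field theory. The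
passage from discrete valuation rings to all `A` uses a finite number of prime ideals.
-/

set_option autoImplicit false

open NumberField IsLocalRing Matrix

open scoped Pointwise

namespace Pool.Agent.Results.MP_924d78_nt.FourPrimes

/-- The absolute Galois group of the field `K`. -/
abbrev G (K : Type) [Field K] : Type := AlgebraicClosure K ≃ₐ[K] AlgebraicClosure K

/-- Let `F / K` be an extension of number fields. All primes of `F` above primes of `K` outside `S` are
unramified over `K` and all primes of `F` above primes in `S` are at most tamely ramified: the ramification
index `e` of the maximal ideal `P` of the ring of integers of `F` over the prime `q` of `K` below it is `1`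
if `q ∉ S` and is prime to the residue characteristic if `q ∈ S`. -/
def TameIn (K F : Type) [Field K] [NumberField K] [Field F] [NumberField F] [Algebra K F]
    (S : Set (Ideal (𝓞 K))) : Prop :=
  ∀ (P : Ideal (𝓞 F)), P.IsMaximal →
    ∀ (q : Ideal (𝓞 K)), q = P.comap (algebraMap (𝓞 K) (𝓞 F)) →
    ∀ e : ℕ, q.map (algebraMap (𝓞 K) (𝓞 F)) ≤ P ^ e →
      ¬ (q.map (algebraMap (𝓞 K) (𝓞 F)) ≤ P ^ (e + 1)) →
      (q ∉ S → e = 1) ∧ (q ∈ S → ¬ (ringChar (𝓞 K ⧸ q) ∣ e))

/-- The homomorphism `ρ` is unramified outside `S` and at most tamely ramified in `S`: `TameIn` holds for
every number field `F` containing `K` and embedded over `K` into the fixed field of the kernel of `ρ`. -/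
def TameAt (K : Type) [Field K] [NumberField K] (S : Set (Ideal (𝓞 K))) {H : Type} [Group H]
    (ρ : G K →* H) : Prop :=
  ∀ (F : Type) [Field F] [NumberField F] [Algebra K F] (ι : F →ₐ[K] AlgebraicClosure K),
    ι.fieldRange ≤ IntermediateField.fixedField ρ.ker → TameIn K F S

/-- The residual representation: the reduction of `ρ` modulo the maximal ideal. -/
noncomputable def residual {Γ A : Type} [Group Γ] [CommRing A] [IsLocalRing A] {n : ℕ}
    (ρ : Γ →* GL (Fin n) A) : Γ →* GL (Fin n) (ResidueField A) :=
  (Matrix.GeneralLinearGroup.map (residue A)).comp ρ

/-- The image of the element `x` of `GL_n(k)` in `PGL_n(k)` has order a power of `p`. -/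
def PElement (p : ℕ) {k : Type} [Field k] {n : ℕ} (x : GL (Fin n) k) : Prop :=
  ∃ (j : ℕ) (a : k), ((x ^ p ^ j : GL (Fin n) k) : Matrix (Fin n) (Fin n) k) = a • 1

/-- All continuous homomorphisms `ρ : G_K → GL_m(A)` which are unramified outside `S`, at most tamely
ramified in `S`, and whose image in `PGL_m` of the residue field is a `p`-group, have finite image. -/
def FiniteImages (p m : ℕ) (K : Type) [Field K] [NumberField K] (S : Set (Ideal (𝓞 K)))
    (A : Type) [CommRing A] [IsLocalRing A] [TopologicalSpace A] : Prop :=
  ∀ ρ : G K →* GL (Fin m) A, Continuous ρ → TameAt K S ρ →
    (∀ g, PElement p (residual ρ g)) → (Set.range ρ).Finite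

/-- The homomorphism `ψ` to the group of order `p` is continuous and unramified outside `S`: its kernel
is open and it is trivial on the inertia groups of all maximal ideals `Q` of the ring of all algebraic
integers which lie above a prime outside `S`. -/
def UnramifiedOutside (p : ℕ) {K : Type} [Field K] [NumberField K] (S : Set (Ideal (𝓞 K)))
    (ψ : G K →* Multiplicative (ZMod p)) : Prop :=
  IsOpen (ψ.ker : Set (G K)) ∧ ∀ Q : Ideal (𝓞 (AlgebraicClosure K)), Q.IsMaximal →
    Q.comap (algebraMap (𝓞 K) (𝓞 (AlgebraicClosure K))) ∉ S → ∀ γ ∈ Q.inertia (G K), ψ γ = 1

/-- Let `K` be a number field of unit rank `0`, that is, the field of rational numbers or an imaginary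
quadratic field, and let `p` be an odd prime number which divides neither the discriminant nor the class
number of `K`. For every finite set `B` of primes there is a set `S` of four primes outside `B` such that
there are exactly `p ^ 4` homomorphisms from the absolute Galois group of `K` to the group of order `p` which
are unramified outside `S`, and such that for all complete Noetherian local rings `A` with finite residue
field of characteristic `p` all continuous `ρ : G_K → GL_2(A)` which are tame and ramified only in a
finite set `S'` whose members with norm congruent to `1` modulo `p` are in `S` or above `p`, and whose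
projective residual image is a `p`-group, have finite image. By Shafarevich and Koch, `G_{K,S}(p)` has four
generators and at most four relations if `B` contains the primes above `p`, so it is infinite by Golod and
Shafarevich. -/
theorem result (K : Type) [Field K] [NumberField K] (hK : Units.rank K = 0) (p : ℕ) [Fact p.Prime]
    (hp : p ≠ 2) (hdisc : ¬ (p : ℤ) ∣ discr K) (hcl : ¬ p ∣ classNumber K)
    (B : Set (Ideal (𝓞 K))) (hB : B.Finite) :
    ∃ S : Finset (Ideal (𝓞 K)), S.card = 4 ∧ (∀ P ∈ S, P.IsMaximal ∧ P ∉ B) ∧
      Nat.card {ψ : G K →* Multiplicative (ZMod p) // UnramifiedOutside p S ψ} = p ^ 4 ∧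
      ∀ S' : Set (Ideal (𝓞 K)), S'.Finite →
      (∀ P ∈ S', P.IsMaximal → (p : 𝓞 K) ∉ P → p ∣ Nat.card (𝓞 K ⧸ P) - 1 → P ∈ S) →
      ∀ (A : Type) [CommRing A] [IsLocalRing A] [IsNoetherianRing A] [TopologicalSpace A]
      [CharP (ResidueField A) p] [Finite (ResidueField A)] [IsAdicComplete (maximalIdeal A) A],
      IsAdic (maximalIdeal A) → FiniteImages p 2 K S' A :=
  Helper45.CR.FourPrimes.main K hK p hp hdisc hcl B hB

end Pool.Agent.Results.MP_924d78_nt.FourPrimes
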