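import Pool.Agent.Helper30.CR.LP924

/-!
# Tame representations for large primes

Let `K` be a number field, `S` a finite set of primes of `K`, and `n` a natural number. There are a
constant `C` and an open subgroup `N` of the absolute Galois group of `K` such that the following
holds for all primes `p > C`, all complete Noetherian local rings `A` with finite residue field of
characteristic `p`, and all continuous representations `ρ` of dimension `n` over `A`, unramified
outside `S` and at most tamely ramified in `S`.

1. If the image of the residual representation is `p`-solvable, for instance solvable or of order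
prime to `p`, then `ρ` is trivial on `N`, and it has finite image. So all these `ρ`, for all `p` and
`A` together, factor through one finite quotient.
2. If `n = 2` and the image of `ρ` is infinite, then it contains a conjugate of the image of
`SL_2(ℤ_p)`.

A group is `p`-solvable if it has a normal series such that in each factor all elements have
`p`-power order, or all elements have order prime to `p`. The representation itself is not assumed
to be virtually solvable.

Idea of the proof. The quotient of a finite linear group of dimension `n` in characteristic `p` by the
subgroup generated by its elements of `p`-power order is a quotient of a subgroup of order prime to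
`p` (Frattini, Schur and Zassenhaus). This subgroup has a linear representation of order prime to `p`,
which lifts to characteristic zero, so by the theorem of Jordan it has an abelian normal subgroup of
bounded index. The fields of bounded degree, tame in `S`, generate a finite extension `L₁` of `K`
(Hermite), and the maximal abelian extension `L₂` of `L₁`, tame in `S`, is finite over `L₁`, as well
as the maximal abelian extension `L₃` of `L₂`, tame in `S`. All this does not depend on `p`. If `p` is
larger than the degree of `L₃`, then `L₂` has no cyclic extension of degree `p`, tame in `S`, and no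
extension of degree prime to `p` in the field cut out by `ρ`. For the radical one uses that for
large `p` a `p`-solvable linear group of dimension `n` has a normal Sylow `p`-subgroup (Hall and
Higman). For `n = 2` the theorem of Dickson gives a residual image which contains a conjugate of
`SL_2` of the prime field, and unipotent elements are lifted.
-/

set_option autoImplicit false

open NumberField IsLocalRing Matrix

namespace Pool.Agent.Results.MP_924d78_nt.PSolvableResidualImage

/-- The absolute Galois group. -/
abbrev G (K : Type) [Field K] : Type := AlgebraicClosure K ≃ₐ[K] AlgebraicClosure K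

/-- In the extension `F` of `K` the primes of `K` outside `S` are unramified and the primes in `S` are at
most tamely ramified: for every maximal ideal `P` of the ring of integers of `F` above a prime `q` of `K`
the ramification index `e` of `P` over `q` is `1` if `q ∉ S` and is prime to the residue
characteristic if `q ∈ S`. -/
def TameOver (K F : Type) [Field K] [NumberField K] [Field F] [NumberField F] [Algebra K F]
    (S : Set (Ideal (𝓞 K))) : Prop :=
  ∀ (P : Ideal (𝓞 F)), P.IsMaximal →
    ∀ (q : Ideal (𝓞 K)), q = P.comap (algebraMap (𝓞 K) (𝓞 F)) →
    ∀ e : ℕ, q.map (algebraMap (𝓞 K) (𝓞 F)) ≤ P ^ e →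
      ¬ (q.map (algebraMap (𝓞 K) (𝓞 F)) ≤ P ^ (e + 1)) →
      (q ∉ S → e = 1) ∧ (q ∈ S → ¬ (ringChar (𝓞 K ⧸ q) ∣ e))

/-- The homomorphism `ρ` from the absolute Galois group of `K` is unramified outside `S` and at most
tamely ramified in `S`: so is every number field `F` over `K` which is embedded into the fixed field of
the kernel of `ρ`. -/
def TameAt (K : Type) [Field K] [NumberField K] (S : Set (Ideal (𝓞 K))) {H : Type} [Group H]
    (ρ : G K →* H) : Prop :=
  ∀ (F : Type) [Field F] [NumberField F] [Algebra K F] (ι : F →ₐ[K] AlgebraicClosure K),
    ι.fieldRange ≤ IntermediateField.fixedField ρ.ker → TameOver K F S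

/-- The group `G` is `p`-solvable: it has a normal series, in each of whose factors all elements
have `p`-power order, or all elements have order prime to `p`. -/
def PSolvable (p : ℕ) (G : Type) [Group G] : Prop :=
  ∃ (m : ℕ) (N : ℕ → Subgroup G), N 0 = ⊥ ∧ N m = ⊤ ∧ ∀ i, (N i).Normal ∧ N i ≤ N (i + 1) ∧
    ((∀ x ∈ N (i + 1), ∃ k : ℕ, x ^ p ^ k ∈ N i) ∨ ∀ x ∈ N (i + 1), ∃ k : ℕ, ¬ p ∣ k ∧ x ^ k ∈ N i)

/-- The image of the residual representation, the reduction of `ρ` modulo the maximal ideal of `A`, is
`p`-solvable. -/
def ResiduallyPSolvable (p : ℕ) {Γ A : Type} [Group Γ] [CommRing A] [IsLocalRing A] {n : ℕ}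
    (ρ : Γ →* GL (Fin n) A) : Prop :=
  PSolvable p ((Matrix.GeneralLinearGroup.map (residue A)).comp ρ).range

/-- The image of `ρ` contains a conjugate of the image of `SL_n(ℤ_p)` under a homomorphism of rings
from `ℤ_p` to `A`. -/
def ContainsSL (p : ℕ) [Fact p.Prime] {Γ A : Type} [Group Γ] [CommRing A] {n : ℕ}
    (ρ : Γ →* GL (Fin n) A) : Prop :=
  ∃ (ι : ℤ_[p] →+* A) (g : GL (Fin n) A), ∀ γ : GL (Fin n) ℤ_[p], γ.det = 1 →
    g * Matrix.GeneralLinearGroup.map ι γ * g⁻¹ ∈ ρ.range

/-- For `p > C`, tame representations with `p`-solvable residual image factor through one finite
quotient, and tame representations of dimension two with infinite image contain a conjugate of the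
image of `SL_2(ℤ_p)`. -/
theorem result (K : Type) [Field K] [NumberField K] (S : Set (Ideal (𝓞 K))) (hS : S.Finite)
    (n : ℕ) : ∃ (C : ℕ) (N : Subgroup (G K)), IsOpen (N : Set (G K)) ∧
      ∀ (p : ℕ) [Fact p.Prime], C < p →
      ∀ (A : Type) [CommRing A] [IsLocalRing A] [IsNoetherianRing A] [TopologicalSpace A]
        [Finite (ResidueField A)] [CharP (ResidueField A) p] [IsAdicComplete (maximalIdeal A) A]
        (ρ : G K →* GL (Fin n) A),
        IsAdic (maximalIdeal A) → Continuous ρ → TameAt K S ρ →
        (ResiduallyPSolvable p ρ → N ≤ ρ.ker ∧ (Set.range ρ).Finite) ∧
        (n = 2 → (Set.range ρ).Infinite → ContainsSL p ρ) :=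
  Pool.Agent.Helper30.LP924.main K S hS n

end Pool.Agent.Results.MP_924d78_nt.PSolvableResidualImage
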