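import Pool.Agent.Helper45.CR.RankPlusOne

/-!
# Dimension at most one plus the unit rank

Let `K` be a number field, let `r` be the rank of its group of units, and let `p` be a prime number,
`16 r + 22 ≤ p`, which divides neither the discriminant nor the class number of `K`. There are infinitely
many sets `S` of `r + 2` primes of `K` such that `G_{K,S}(p)` is infinite by the theorem of Golod and
Shafarevich and such that all tame representations `ρ : G_K → GL_m(A)`, `m ≤ r + 1`, which are ramified
only in `S` and in other primes of norm not congruent to `1` modulo `p`, and whose image in `PGL_m` of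
the residue field is a `p`-group, have finite image. So `m = 2` is allowed for every number field with
infinitely many units, and `m` is allowed for every number field of degree at least `2 m`. This is the
crisp form of the theorem in `Helper91/LIN/Fin9.lean`.

Idea of the proof.

1. Class field theory modulo `p` for tame characters is proved from the beginning. Let `T` be a finite
set of primes `v` of a number field `L` of degree one with norm congruent to `1` modulo `p`, where `p`
does not divide the class number `h` of `L`, and let `log_v` be a surjective homomorphism from the
multiplicative group of the residue field to `F_p`. The characters of the absolute Galois group of `L`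
with values in `F_p` which are unramified outside `T` correspond to the vectors `κ` in `F_p ^ T` with
`∑ κ_v log_v ε = 0` for all units `ε`; the character is ramified at `v` if and only if `κ_v ≠ 0`, and its
value at a Frobenius element of another such prime `u` is `- h⁻¹ ∑ κ_v log_v π`, where `π` is a generator
of `u ^ h` (`Helper77.TC.exists_kap`). The primes are chosen with a form of the density theorem of
Frobenius, with prescribed logarithms of the units and of finitely many other elements.

2. The first prime `v₀` of `S` is a prime such that all units of `K` are `p`-th powers modulo `v₀`. It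
defines the cyclic extension `L` of `K` of degree `p`, which is ramified exactly at `v₀`; let `h` be a
generator of its Galois group and `w₀` the prime of `L` above `v₀`. Then `p` does not divide the class
number of `L`. The group `V` of the units of `L` modulo `p`-th powers is a module for
`F_p[X] / (X ^ p)`, `X = h - 1`. It has dimension `(r + 1) p - 1`, and the kernel of `X` has dimension
at most `r + 1`: if `h e / e` is the `p`-th power of a unit `η`, then `η = h β / β` by Hilbert's
theorem 90, and the order of the norm of `β` at `v₀` modulo `p` is the only invariant. So the dual of
`V` is the sum of `r` Jordan blocks of size `p` and one of size `p - 1`. The logarithm at `w₀` is in the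
kernel of `X` and not in the image of `X ^ (p - 1)`, because a character of the Galois group of `L` which
is invariant under the Galois group of `K` is unramified at `w₀`.

3. The other primes of `S` split completely in `L`. The logarithms of the primes `w_1, ..., w_(r+1)` of
`L` above them on the units are chosen in the dual of `V` such that the characters unramified outside the
primes above `S` are exactly given by the polynomials `f` of degree at most `δ`: the coordinate at
`h ^ s w_i` is `f(s)` for all `i`. So the vector of the values at an element of the inertia group
of `h ^ s w_i` is `γ(s) = (1, s, ..., s ^ δ)`. The last prime `w_(r+1)` is chosen such that the vector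
of the values at a Frobenius element of `h ^ s w_i` is `- γ(s + i)`, for `1 ≤ i ≤ r`; this is possible
although the logarithms of the conjugates of a generator of `w_i ^ h` at `w_i` are not known.

4. Let a representation with values in `GL_m(O)` of the Galois group of `L` be given, where `O` is a
complete discrete valuation ring, and let it be congruent to `1` modulo the power `π ^ a` of the prime
element. The first coefficient is a linear map `φ` from `F_p ^ (δ + 1)` to the matrices over the residue
field. The relation between inertia and Frobenius elements says that the commutator of `φ(γ(s))` and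
`φ(γ(s + i))` vanishes, `1 ≤ i ≤ r` (if `a` is the valuation of `p`, this holds because the norms of the
primes `w_i` are congruent to `1` modulo `p ^ 2` for `i ≤ r`). Each entry of the commutator is an
alternating form `W` which is a sum of `m - 1` forms of rank two, and `m - 1 ≤ r`. Such a form which
vanishes at all pairs `(γ(s), γ(s + i))` is zero: `W(γ(t), γ(t + i))` is a polynomial in `t` of degree
less than `p`, so it is zero for `|i| ≤ m - 1`; if `i > m - 1` is minimal such that it is not zero, then
the matrix of the values of `W` at `γ(t + j)` and `γ(t + i + k)`, `0 ≤ j, k ≤ 2 m - 2`, is triangular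
with diagonal entries different from zero, which contradicts the rank. So `φ` is commutative, and if `a`
is the valuation of `p`, then the primes `h ^ s w_(r+1)` give `φ = 0`. By a criterion proved before
(`Helper91.KL.finite_of_critQ`) the image is finite. Finiteness for `L` gives finiteness for `K`
(`Helper45.LIN.descent_gal`).
-/

set_option autoImplicit false

open NumberField IsLocalRing Matrix

open scoped Pointwise

namespace Pool.Agent.Results.MP_924d78_nt.RankPlusOne

/-- The absolute Galois group of the field `K`. -/
abbrev G (K : Type) [Field K] : Type := AlgebraicClosure K ≃ₐ[K] AlgebraicClosure K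

/-- Let `F / K` be an extension of number fields. All primes of `F` above primes of `K` outside `S` are
unramified over `K` and all primes of `F` above primes in `S` are at most tamely ramified: the ramification
index `e` of the maximal ideal `P` of the ring of integers of `F` over the prime `q` of `K` below it is `1`
if `q ∉ S` and is prime to the residue characteristic if `q ∈ S`. -/
def TameIn (K F : Type) [Field K] [NumberField K] [Field F] [NumberField F] [Algebra K F]
    (S : Set (Ideal (𝓞 K))) : Prop :=
  ∀ (P : Ideal (𝓞 F)), P.IsMaximal →
    ∀ (q : Ideal (𝓞 K)), q = P.comap (algebraMap (𝓞 K) (𝓞 F)) →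
    ∀ e : ℕ, q.map (algebraMap (𝓞 K) (𝓞 F)) ≤ P ^ e →
      ¬ (q.map (algebraMap (𝓞 K) (𝓞 F)) ≤ P ^ (e + 1)) →
      (q ∉ S → e = 1) ∧ (q ∈ S → ¬ (ringChar (𝓞 K ⧸ q) ∣ e))

/-- The homomorphism `ρ` is unramified outside `S` and at most tamely ramified in `S`: `TameIn` holds for
every number field `F` containing `K` and embedded over `K` into the fixed field of the kernel of `ρ`. -/
def TameAt (K : Type) [Field K] [NumberField K] (S : Set (Ideal (𝓞 K))) {H : Type} [Group H]
    (ρ : G K →* H) : Prop :=
  ∀ (F : Type) [Field F] [NumberField F] [Algebra K F] (ι : F →ₐ[K] AlgebraicClosure K),
    ι.fieldRange ≤ IntermediateField.fixedField ρ.ker → TameIn K F S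

/-- The residual representation: the reduction of `ρ` modulo the maximal ideal. -/
noncomputable def residual {Γ A : Type} [Group Γ] [CommRing A] [IsLocalRing A] {n : ℕ}
    (ρ : Γ →* GL (Fin n) A) : Γ →* GL (Fin n) (ResidueField A) :=
  (Matrix.GeneralLinearGroup.map (residue A)).comp ρ

/-- The image of the element `x` of `GL_n(k)` in `PGL_n(k)` has order a power of `p`. -/
def PElement (p : ℕ) {k : Type} [Field k] {n : ℕ} (x : GL (Fin n) k) : Prop :=
  ∃ (j : ℕ) (a : k), ((x ^ p ^ j : GL (Fin n) k) : Matrix (Fin n) (Fin n) k) = a • 1

/-- All continuous homomorphisms `ρ : G_K → GL_m(A)` which are unramified outside `S`, at most tamely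
ramified in `S`, and whose image in `PGL_m` of the residue field is a `p`-group, have finite image. -/
def FiniteImages (p m : ℕ) (K : Type) [Field K] [NumberField K] (S : Set (Ideal (𝓞 K)))
    (A : Type) [CommRing A] [IsLocalRing A] [TopologicalSpace A] : Prop :=
  ∀ ρ : G K →* GL (Fin m) A, Continuous ρ → TameAt K S ρ →
    (∀ g, PElement p (residual ρ g)) → (Set.range ρ).Finite

/-- The homomorphism `ψ` to the group of order `p` is continuous and unramified outside `S`: its kernel
is open and it is trivial on the inertia groups of all maximal ideals `Q` of the ring of all algebraic
integers which lie above a prime outside `S`. -/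
def UnramifiedOutside (p : ℕ) {K : Type} [Field K] [NumberField K] (S : Set (Ideal (𝓞 K)))
    (ψ : G K →* Multiplicative (ZMod p)) : Prop :=
  IsOpen (ψ.ker : Set (G K)) ∧ ∀ Q : Ideal (𝓞 (AlgebraicClosure K)), Q.IsMaximal →
    Q.comap (algebraMap (𝓞 K) (𝓞 (AlgebraicClosure K))) ∉ S → ∀ γ ∈ Q.inertia (G K), ψ γ = 1

/-- There are `p ^ d` homomorphisms from the absolute Galois group of `L` to the group of order `p`
unramified outside `S`, where `d > 0` and `4 (d + r) ≤ d ^ 2` for the rank `r` of the group of units of `L`.
By Shafarevich and Koch, `G_{L,S}(p)` has `d` generators and `d + r` relations if `S` is not empty and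
contains no prime above `p`, so it is infinite by Golod and Shafarevich. -/
def GolodShafarevich (p : ℕ) (L : Type) [Field L] [NumberField L] (S : Set (Ideal (𝓞 L))) : Prop :=
  ∃ d : ℕ, 0 < d ∧ Nat.card {ψ : G L →* Multiplicative (ZMod p) // UnramifiedOutside p S ψ} = p ^ d ∧
    4 * (d + Units.rank L) ≤ d ^ 2

/-- The set of ideals of the ring of integers of `L` which lie above an ideal in `S`. -/
def Above (K L : Type) [Field K] [NumberField K] [Field L] [NumberField L] [Algebra K L]
    (S : Set (Ideal (𝓞 K))) : Set (Ideal (𝓞 L)) :=
  {P | P.comap (algebraMap (𝓞 K) (𝓞 L)) ∈ S}

/-- The extension `L / K` is Galois of degree `p` and unramified outside `S`: the ideal of `L` generated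
by the prime of `K` below a maximal ideal `P` is not contained in `P ^ 2` if this prime is not in `S`. -/
def CyclicOutside (p : ℕ) (K L : Type) [Field K] [NumberField K] [Field L] [NumberField L] [Algebra K L]
    (S : Set (Ideal (𝓞 K))) : Prop :=
  Module.finrank K L = p ∧ IsGalois K L ∧ ∀ P : Ideal (𝓞 L), P.IsMaximal →
    P.comap (algebraMap (𝓞 K) (𝓞 L)) ∉ S →
    ¬ (P.comap (algebraMap (𝓞 K) (𝓞 L))).map (algebraMap (𝓞 K) (𝓞 L)) ≤ P ^ 2

/-- Let `K` be a number field with unit rank `r`, and let `p ≥ 16 r + 22` be a prime number which divides
neither the discriminant nor the class number of `K`. For every finite set `B` of primes there is a set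
`S` of `r + 2` primes outside `B` such that some extension `L` of `K` of degree `p`, unramified outside
`S`, satisfies `GolodShafarevich`, and such that for all complete Noetherian local rings `A` with finite
residue field of characteristic `p` and all `m ≤ r + 1` all continuous `ρ : G_K → GL_m(A)` which are tame
and ramified only in a finite set `S'` whose members with norm congruent to `1` modulo `p` are in `S` or
above `p`, and whose projective residual image is a `p`-group, have finite image. -/
theorem result (K : Type) [Field K] [NumberField K] (p : ℕ) [Fact p.Prime]
    (hp : 16 * Units.rank K + 22 ≤ p) (hdisc : ¬ (p : ℤ) ∣ discr K) (hcl : ¬ p ∣ classNumber K)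
    (B : Set (Ideal (𝓞 K))) (hB : B.Finite) :
    ∃ S : Finset (Ideal (𝓞 K)), S.card = Units.rank K + 2 ∧ (∀ P ∈ S, P.IsMaximal ∧ P ∉ B) ∧
      (∃ (L : Type) (_ : Field L) (_ : NumberField L) (_ : Algebra K L),
        CyclicOutside p K L S ∧ GolodShafarevich p L (Above K L S)) ∧
      ∀ S' : Set (Ideal (𝓞 K)), S'.Finite →
      (∀ P ∈ S', P.IsMaximal → (p : 𝓞 K) ∉ P → p ∣ Nat.card (𝓞 K ⧸ P) - 1 → P ∈ S) →
      ∀ m ≤ Units.rank K + 1,
      ∀ (A : Type) [CommRing A] [IsLocalRing A] [IsNoetherianRing A] [TopologicalSpace A]
      [CharP (ResidueField A) p] [Finite (ResidueField A)] [IsAdicComplete (maximalIdeal A) A],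
      IsAdic (maximalIdeal A) → FiniteImages p m K S' A :=
  Helper45.CR.RankPlusOne.main K p hp hdisc hcl B hB

end Pool.Agent.Results.MP_924d78_nt.RankPlusOne
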