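import Pool.Agent.Helper45.CR.ThreeMorePrimes

/-!
# Every finite set of primes, enlarged by three primes

For every number field `K`, every dimension `n`, every finite set `T` of primes of `K` and every large
prime number `p` congruent to `1` modulo a power of two depending on `n` there are infinitely many sets `S`
of THREE primes of `K` such that all tame representations `ρ : G_K → GL_m(A)`, `m ≤ n`, which are ramified
only in `T ∪ S`, have finite image, if the residual representation is any representation of the Galois
group of `M₀` over `K` (up to a `p`-group), where `M₀` is `K` or any finite Galois extension of `K` in which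
two infinite places of `K` split completely. The Galois group of the corresponding `p`-extensions is
infinite by the theorem of Golod and Shafarevich.

This is the crisp form of the theorem in `Helper45/EQM/Final.lean`. The idea of its proof:

Let `F` be a cyclic extension of `K` of degree `c = 2 ^ k` in which all infinite places split, `M` the
compositum of `M₀` and `F`, `Q` the Galois group of `M` over `K`, `Δ` the subgroup which fixes `F`, and let
`σ` in `Q` of order `c` fix `M₀` and generate the Galois group of `F` over `K`; `p` does not divide the order
of `Δ`.

1. The primes `v₀`, `v₁`, `v₂` in `S` are found with a form of the density theorem of Frobenius: a cyclic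
extension `H / H'` of degree `2 ^ a` of number fields and a functional on finitely many elements of `H`
which transforms under the generator by `g` modulo `p` are given; then there is a prime of `H'` of degree one
with only one prime of `H` above it, whose logarithm modulo `p` has the given values.
The prime `v₀` has one prime above it in `F`, all units of `F` are `p`-th powers modulo this prime, and
its norm over `K` has order `c` modulo `p`. It defines a cyclic extension `L₀` of `F` of degree `p` which is
Galois over `K`, with group `⟨h⟩ ⋊ ⟨σ⟩`, `σ h σ⁻¹ = h ^ ω`, and `L` is the compositum of `M` and `L₀`.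

2. Let `D = - log h`, a derivation of the polynomial functions of `s` in the field with `p` elements. The
primes of `L₀` above `v₁` and `v₂` are the `h ^ s σ ^ j w₁`, `h ^ s σ ^ j w₂`, `j < c / 2`. The norm of
`v₁` is congruent to `-1` modulo `p ^ 2`, the norm of `v₂` is congruent to `1` modulo `p` and not modulo
`p ^ 2`. The logarithms at `w₁` and `w₂` on the units are the odd and the even part of a functional such
that the characters of `L₀` unramified outside the primes above `S` are given by the polynomials `f` of degree
at most `δ`: the coordinate at `h ^ s σ ^ j w₁` is `ω ^ j f'(s)`, at `h ^ s σ ^ j w₂` it is `f(s)`, and the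
value at a Frobenius element of `h ^ s σ ^ j w₁` is `- ∑ ω ^ (2 e j) f^(2 e)(s)`, the sum over `e < c / 2`.

3. The two split places `W₁`, `W₂` give units of `M` which are large only at one place, and two functionals
`m₁`, `m₂` modulo `p` on the units of `M` whose conjugates under `Q` satisfy no linear relation except the
two trivial ones (a maximum principle for the weighted sum over both places). The primes `v₀`, `v₁`, `v₂` are
chosen such that the logarithms at the primes of `M` above them are, up to `Δ`-invariant functionals, the
`ω`-part of `m₂` under `σ` and the odd and the even part of `m₁` under `σ ^ (c / 2)`. Then every character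
of `M` of order `p` unramified outside `S` is invariant under `Δ`.

4. As `L` over `M` is a cyclic extension of degree `p` ramified only above `v₀`, a fixed point argument shows
that every character of `L` unramified outside the primes above `S` is invariant under the Galois group of
`L` over `L₀`, so it is the restriction of a character of `L₀`. The decomposition groups in `L` over `L₀` at
the primes above `S` are trivial, so `L` has the same inertia and Frobenius vectors as `L₀`.

5. Let `γ(s) = (1, s, ..., s ^ δ)`. The first coefficient of a representation over a discrete valuation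
ring gives alternating forms `W` on the space of dimension `δ + 1` of rank at most `2 (m - 1)`, and the
relations at the primes above `v₁` say that `∑ ω ^ (j (2 e + 1)) W(γ^(2 e)(s), γ'(s)) = 0` for all
`j < c / 2`. So the character `ω` separates the orders: `W(γ^(2 e)(s), γ'(s)) = 0` for all `e < c / 2`. If
`W` is not zero and `i` is the order of vanishing of `W(γ(s), γ(t))` on the diagonal, then `i` is odd, so
`i > c`, and the matrix of the mixed derivatives of order at most `i` is triangular, so the rank of `W` is
more than `c ≥ 2 (n - 1)`, a contradiction. So `W = 0`, and the primes above `v₂` show that the linear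
forms vanish also. This gives finite image for `L`, and so for `M` and for `K`.
-/

set_option autoImplicit false

open NumberField IsLocalRing Matrix

open scoped Pointwise

namespace Pool.Agent.Results.MP_924d78_nt.ThreeMorePrimes

/-- The absolute Galois group of the field `K`. -/
abbrev G (K : Type) [Field K] : Type := AlgebraicClosure K ≃ₐ[K] AlgebraicClosure K

/-- Let `F / K` be an extension of number fields. All primes of `F` above primes of `K` outside `S` are
unramified over `K` and all primes of `F` above primes in `S` are at most tamely ramified: the ramification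
index `e` of the maximal ideal `P` of the ring of integers of `F` over the prime `q` of `K` below it is `1`
if `q ∉ S` and is prime to the residue characteristic if `q ∈ S`. -/
def TameIn (K F : Type) [Field K] [NumberField K] [Field F] [NumberField F] [Algebra K F]
    (S : Set (Ideal (𝓞 K))) : Prop :=
  ∀ (P : Ideal (𝓞 F)), P.IsMaximal →
    ∀ (q : Ideal (𝓞 K)), q = P.comap (algebraMap (𝓞 K) (𝓞 F)) →
    ∀ e : ℕ, q.map (algebraMap (𝓞 K) (𝓞 F)) ≤ P ^ e →
      ¬ (q.map (algebraMap (𝓞 K) (𝓞 F)) ≤ P ^ (e + 1)) →
      (q ∉ S → e = 1) ∧ (q ∈ S → ¬ (ringChar (𝓞 K ⧸ q) ∣ e))

/-- The homomorphism `ρ` is unramified outside `S` and at most tamely ramified in `S`: `TameIn` holds for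
every number field `F` containing `K` and embedded over `K` into the fixed field of the kernel of `ρ`. -/
def TameAt (K : Type) [Field K] [NumberField K] (S : Set (Ideal (𝓞 K))) {H : Type} [Group H]
    (ρ : G K →* H) : Prop :=
  ∀ (F : Type) [Field F] [NumberField F] [Algebra K F] (ι : F →ₐ[K] AlgebraicClosure K),
    ι.fieldRange ≤ IntermediateField.fixedField ρ.ker → TameIn K F S

/-- The residual representation: the reduction of `ρ` modulo the maximal ideal. -/
noncomputable def residual {Γ A : Type} [Group Γ] [CommRing A] [IsLocalRing A] {n : ℕ}
    (ρ : Γ →* GL (Fin n) A) : Γ →* GL (Fin n) (ResidueField A) :=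
  (Matrix.GeneralLinearGroup.map (residue A)).comp ρ

/-- The image of the element `x` of `GL_n(k)` in `PGL_n(k)` has order a power of `p`. -/
def PElement (p : ℕ) {k : Type} [Field k] {n : ℕ} (x : GL (Fin n) k) : Prop :=
  ∃ (j : ℕ) (a : k), ((x ^ p ^ j : GL (Fin n) k) : Matrix (Fin n) (Fin n) k) = a • 1

/-- All continuous homomorphisms `ρ : G_K → GL_m(A)` which are unramified outside `S`, at most tamely
ramified in `S`, and such that the image of the subgroup `H` in `PGL_m` of the residue field is a
`p`-group, have finite image. -/
def FiniteImages (p m : ℕ) (K : Type) [Field K] [NumberField K] (H : Subgroup (G K))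
    (S : Set (Ideal (𝓞 K))) (A : Type) [CommRing A] [IsLocalRing A] [TopologicalSpace A] : Prop :=
  ∀ ρ : G K →* GL (Fin m) A, Continuous ρ → TameAt K S ρ →
    (∀ g ∈ H, PElement p (residual ρ g)) → (Set.range ρ).Finite

/-- The homomorphism `ψ` to the group of order `p` is continuous and unramified outside `S`: its kernel
is open and it is trivial on the inertia groups of all maximal ideals `Q` of the ring of all algebraic
integers which lie above a prime outside `S`. -/
def UnramifiedOutside (p : ℕ) {K : Type} [Field K] [NumberField K] (S : Set (Ideal (𝓞 K)))
    (ψ : G K →* Multiplicative (ZMod p)) : Prop :=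
  IsOpen (ψ.ker : Set (G K)) ∧ ∀ Q : Ideal (𝓞 (AlgebraicClosure K)), Q.IsMaximal →
    Q.comap (algebraMap (𝓞 K) (𝓞 (AlgebraicClosure K))) ∉ S → ∀ γ ∈ Q.inertia (G K), ψ γ = 1

/-- There are `p ^ d` homomorphisms from the absolute Galois group of `L` to the group of order `p`
unramified outside `S`, where `d > 0` and `4 (d + r) ≤ d ^ 2` for the rank `r` of the group of units of `L`.
By Shafarevich and Koch, `G_{L,S}(p)` has `d` generators and `d + r` relations if `S` is not empty and
contains no prime above `p`, so it is infinite by Golod and Shafarevich. -/
def GolodShafarevich (p : ℕ) (L : Type) [Field L] [NumberField L] (S : Set (Ideal (𝓞 L))) : Prop :=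
  ∃ d : ℕ, 0 < d ∧ Nat.card {ψ : G L →* Multiplicative (ZMod p) // UnramifiedOutside p S ψ} = p ^ d ∧
    4 * (d + Units.rank L) ≤ d ^ 2

/-- The set of ideals of the ring of integers of `L` which lie above an ideal in `S`. -/
def Above (K L : Type) [Field K] [NumberField K] [Field L] [NumberField L] [Algebra K L]
    (S : Set (Ideal (𝓞 K))) : Set (Ideal (𝓞 L)) :=
  {P | P.comap (algebraMap (𝓞 K) (𝓞 L)) ∈ S}

/-- The extension `L / K` is Galois of degree `p` and unramified outside `S`: the ideal of `L` generated
by the prime of `K` below a maximal ideal `P` is not contained in `P ^ 2` if this prime is not in `S`. -/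
def CyclicOutside (p : ℕ) (K L : Type) [Field K] [NumberField K] [Field L] [NumberField L] [Algebra K L]
    (S : Set (Ideal (𝓞 K))) : Prop :=
  Module.finrank K L = p ∧ IsGalois K L ∧ ∀ P : Ideal (𝓞 L), P.IsMaximal →
    P.comap (algebraMap (𝓞 K) (𝓞 L)) ∉ S →
    ¬ (P.comap (algebraMap (𝓞 K) (𝓞 L))).map (algebraMap (𝓞 K) (𝓞 L)) ≤ P ^ 2

/-- The field `M₀` is a Galois extension of `K`, and `M₀` is `K` or there are two infinite places of `K`
which split completely in `M₀`. -/
def TwoSplit (K : Type) [Field K] [NumberField K] (M₀ : IntermediateField K (AlgebraicClosure K))
    [NumberField M₀] : Prop :=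
  IsGalois K M₀ ∧ (M₀ = ⊥ ∨ ∃ v₁ v₂ : InfinitePlace K, v₁ ≠ v₂ ∧ ∀ w : InfinitePlace M₀,
    w.comap (algebraMap K M₀) = v₁ ∨ w.comap (algebraMap K M₀) = v₂ → w.IsUnramified K)

/-- Let `2 (n - 1) ≤ 2 ^ k`, `k ≥ 1`, let `K` be a number field and `M₀` as in `TwoSplit`. There is a finite
Galois extension `M` of `K` containing `M₀` such that for every finite set `T` of primes of `K`, all large
prime numbers `p` congruent to `1` modulo `2 ^ k` and all finite `B` there is a set `S` of three primes
of `K` outside `B` such that some extension `L` of `M` of degree `p`, unramified outside the primes above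
`S`, satisfies `GolodShafarevich`, and such that for all complete Noetherian local rings `A` with finite
residue field of characteristic `p` and all `m ≤ n` all continuous `ρ : G_K → GL_m(A)` which are
unramified outside `T ∪ S`, at most tamely ramified in `T ∪ S`, and such that the image of `G_M` in `PGL_m`
of the residue field is a `p`-group, have finite image; and the same is true for all `ρ : G_M → GL_m(A)`
with the primes of `M` above `T ∪ S`. -/
theorem result (n k : ℕ) (hk : 1 ≤ k) (hn : 2 * (n - 1) ≤ 2 ^ k) (K : Type) [Field K] [NumberField K]
    (M₀ : IntermediateField K (AlgebraicClosure K)) [NumberField M₀] (hM₀ : TwoSplit K M₀) :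
    ∃ (M : IntermediateField K (AlgebraicClosure K)) (_ : NumberField M), M₀ ≤ M ∧ IsGalois K M ∧
    ∀ T : Set (Ideal (𝓞 K)), T.Finite → ∃ N : ℕ, ∀ (p : ℕ) [Fact p.Prime], N < p →
      p ≡ 1 [MOD 2 ^ k] → ∀ B : Set (Ideal (𝓞 K)), B.Finite →
      ∃ S : Finset (Ideal (𝓞 K)), S.card = 3 ∧ (∀ P ∈ S, P.IsMaximal ∧ P ∉ B) ∧
      (∃ (L : Type) (_ : Field L) (_ : NumberField L) (_ : Algebra M L),
        CyclicOutside p M L (Above K M S) ∧ GolodShafarevich p L (Above M L (Above K M S))) ∧
      ∀ m ≤ n, ∀ (A : Type) [CommRing A] [IsLocalRing A] [IsNoetherianRing A] [TopologicalSpace A]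
      [CharP (ResidueField A) p] [Finite (ResidueField A)] [IsAdicComplete (maximalIdeal A) A],
      IsAdic (maximalIdeal A) → FiniteImages p m K M.fixingSubgroup (T ∪ S) A ∧
        FiniteImages p m M ⊤ (Above K M (T ∪ S)) A :=
  Helper45.CR.ThreeMorePrimes.main n k hk hn K M₀ hM₀

end Pool.Agent.Results.MP_924d78_nt.ThreeMorePrimes
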